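import Pool.Agent.W705.BorrGroup

set_option autoImplicit false

/-!
# Surgeries on the Borromean rings: the L-spaces have non-left-orderable fundamental group

For rational numbers `r 0, r 1, r 2` all at least `1`, or all at most `-1`, every homomorphism
from the fundamental group of the `(r 0, r 1, r 2)`-surgery on the Borromean rings to a
left-orderable group is trivial; in particular the fundamental group is not left-orderable.

Idea.  Let the group act by order automorphisms on a complete linear order (the lower sets of a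
left-ordered group).  The inequality `r ≥ 1` for a component with meridian `x` and longitude `l`
gives: `x l` does not move up a point that is moved up by `x`, does not move down a point that is
moved down by `x`, and `l` fixes the fixed points of `x`.  The relations
`z y z⁻¹ = y l_x`, `x z x⁻¹ = z l_y`, `y x y⁻¹ = x l_z` and an intermediate value argument show
that the three meridians have the same fixed points, and between fixed points two of the
meridians move all points in the same direction, which contradicts the relations.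
-/

namespace Pool.Agent.Results.MP_3d425c_gt.BorromeanSurgery

/-- A nontrivial group is left-orderable if it carries a strict total order that is invariant
under left multiplication. -/
def LeftOrderable (G : Type*) [Group G] : Prop :=
  Nontrivial G ∧ ∃ lt : G → G → Prop, IsStrictTotalOrder G lt ∧
    ∀ a b c : G, lt a b ↔ lt (c * a) (c * b)

/-- Wirtinger generators of the standard diagram of the Borromean rings by three round circles
`0, 1, 2`, any two of which meet in one point inside and one point outside the third circle;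
circle `i + 2` passes over circle `i` at both crossings.  `arc i false` is the meridian of the
arc of circle `i` through its outer crossing with circle `i + 1`, and `arc i true` the one of
the arc through its inner crossing with circle `i + 1`. -/
def arc (i : Fin 3) (b : Bool) : FreeGroup (Fin 3 × Bool) := FreeGroup.of (i, b)

/-- The (preferred, 0-framed) longitude of circle `i`, which passes under the inner and then
under the outer arc of circle `i + 2`, with opposite signs. -/
def longitude (i : Fin 3) : FreeGroup (Fin 3 × Bool) :=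
  arc (i + 2) true * (arc (i + 2) false)⁻¹

/-- The relators: the Wirtinger relators of the six crossings and the three surgery relators
`meridian ^ p * longitude ^ q`. -/
def relators (p q : Fin 3 → ℤ) : Set (FreeGroup (Fin 3 × Bool)) :=
  {w | ∃ i : Fin 3,
    w = (arc (i + 2) true)⁻¹ * arc i false * arc (i + 2) true * (arc i true)⁻¹ ∨
    w = arc (i + 2) false * arc i true * (arc (i + 2) false)⁻¹ * (arc i false)⁻¹ ∨
    w = arc i false ^ p i * longitude i ^ q i}

/-- The fundamental group of the closed 3-manifold obtained from the Borromean rings by surgery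
with slope `p i / q i` on component `i`. -/
abbrev SurgeryGroup (p q : Fin 3 → ℤ) : Type := PresentedGroup (relators p q)

open Pool.Agent.W705.Borr in
theorem eq_one_of_rel {H : Type*} [Group H] (hH : LeftOrderable H) {x y z : H}
    {p q : Fin 3 → ℤ} (hq : ∀ i, 1 ≤ q i) (hpq : ∀ i, q i ≤ p i) (h : Rel x y z p q) :
    x = 1 ∧ y = 1 ∧ z = 1 := by
  classical
  obtain ⟨_, lt, hlt, hinv⟩ := hH
  let _ : LinearOrder H := linearOrderOfSTO lt
  have hinv' : ∀ a b c : H, a ≤ b ↔ c * a ≤ c * b := by
    intro a b c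
    show (a = b ∨ lt a b) ↔ (c * a = c * b ∨ lt (c * a) (c * b))
    rw [mul_right_inj, ← hinv]
  exact rel_trivial hinv' hq hpq h

open Pool.Agent.W705.Borr in
theorem hom_trivial (p q : Fin 3 → ℤ) (hq : ∀ i, 1 ≤ q i)
    (h : (∀ i, q i ≤ p i) ∨ (∀ i, p i ≤ - q i)) (H : Type*) [Group H] (hH : LeftOrderable H)
    (f : SurgeryGroup p q →* H) (g : SurgeryGroup p q) : f g = 1 := by
  -- images of the generators
  set m : Fin 3 → Bool → H := fun i b => f (PresentedGroup.of (i, b)) with hm
  have rel : ∀ w ∈ relators p q, f (PresentedGroup.mk (relators p q) w) = 1 := by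
    intro w hw
    rw [show PresentedGroup.mk (relators p q) w = 1 from
      (PresentedGroup.one_of_mem hw), map_one]
  have e1 : ∀ i, (m (i + 2) true)⁻¹ * m i false * m (i + 2) true * (m i true)⁻¹ = 1 := by
    intro i
    have := rel _ ⟨i, Or.inl rfl⟩
    simpa [arc, hm, PresentedGroup.of] using this
  have e2 : ∀ i, m (i + 2) false * m i true * (m (i + 2) false)⁻¹ * (m i false)⁻¹ = 1 := by
    intro i
    have := rel _ ⟨i, Or.inr (Or.inl rfl)⟩
    simpa [arc, hm, PresentedGroup.of] using this
  have e3 : ∀ i, m i false ^ p i * (m (i + 2) true * (m (i + 2) false)⁻¹) ^ q i = 1 := by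
    intro i
    have := rel _ ⟨i, Or.inr (Or.inr rfl)⟩
    simpa [arc, longitude, hm, PresentedGroup.of] using this
  set x := m 0 true with hx
  set y := m 1 true with hy
  set z := m 2 true with hz
  -- outer arcs
  have o0 : m 0 false = z * x * z⁻¹ := by
    have := e1 0
    have h2 : z⁻¹ * m 0 false * z = x := by
      rw [← mul_inv_eq_one]; exact this
    rw [← h2]; group
  have o1 : m 1 false = x * y * x⁻¹ := by
    have := e1 1
    have h2 : x⁻¹ * m 1 false * x = y := by
      rw [← mul_inv_eq_one]; exact this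
    rw [← h2]; group
  have o2 : m 2 false = y * z * y⁻¹ := by
    have := e1 2
    have h2 : y⁻¹ * m 2 false * y = z := by
      rw [← mul_inv_eq_one]; exact this
    rw [← h2]; group
  -- second crossing of each circle
  have c0 : (y * z * y⁻¹) * x * (y * z * y⁻¹)⁻¹ = z * x * z⁻¹ := by
    have h1 : m 2 false * m 0 true * (m 2 false)⁻¹ = m 0 false := by
      rw [← mul_inv_eq_one]; exact e2 0
    rwa [o0, o2] at h1
  have c1 : (z * x * z⁻¹) * y * (z * x * z⁻¹)⁻¹ = x * y * x⁻¹ := by
    have h1 : m 0 false * m 1 true * (m 0 false)⁻¹ = m 1 false := by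
      rw [← mul_inv_eq_one]; exact e2 1
    rwa [o0, o1] at h1
  have c2 : (x * y * x⁻¹) * z * (x * y * x⁻¹)⁻¹ = y * z * y⁻¹ := by
    have h1 : m 1 false * m 2 true * (m 1 false)⁻¹ = m 2 false := by
      rw [← mul_inv_eq_one]; exact e2 2
    rwa [o1, o2] at h1
  have s0 : (z * x * z⁻¹) ^ p 0 * (z * (y * z * y⁻¹)⁻¹) ^ q 0 = 1 := by
    have h1 := e3 0
    rw [o0] at h1
    have h2 : m (0 + 2) true * (m (0 + 2) false)⁻¹ = z * (y * z * y⁻¹)⁻¹ := by
      rw [← o2]; rfl
    rwa [h2] at h1
  have s1 : (x * y * x⁻¹) ^ p 1 * (x * (z * x * z⁻¹)⁻¹) ^ q 1 = 1 := by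
    have h1 := e3 1
    rw [o1] at h1
    have h2 : m (1 + 2) true * (m (1 + 2) false)⁻¹ = x * (z * x * z⁻¹)⁻¹ := by
      rw [← o0]; rfl
    rwa [h2] at h1
  have s2 : (y * z * y⁻¹) ^ p 2 * (y * (x * y * x⁻¹)⁻¹) ^ q 2 = 1 := by
    have h1 := e3 2
    rw [o2] at h1
    have h2 : m (2 + 2) true * (m (2 + 2) false)⁻¹ = y * (x * y * x⁻¹)⁻¹ := by
      rw [← o1]; rfl
    rwa [h2] at h1
  -- the relations in terms of the inverses of the inner meridians
  have com : ∀ u v w : H, (v * w * v⁻¹) * u * (v * w * v⁻¹)⁻¹ = w * u * w⁻¹ →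
      u⁻¹ * (v⁻¹⁻¹ * w⁻¹ * v⁻¹ * w⁻¹⁻¹) = (v⁻¹⁻¹ * w⁻¹ * v⁻¹ * w⁻¹⁻¹) * u⁻¹ := by
    intro u v w huv
    have h1 : v * w * v⁻¹ * u = w * u * w⁻¹ * (v * w * v⁻¹) := by
      rw [← huv]; group
    have h2 : (v * w⁻¹ * v⁻¹ * w) * u = u * (v * w⁻¹ * v⁻¹ * w) := by
      have h3 : (v * w * v⁻¹)⁻¹ * (v * w * v⁻¹ * u) * (v * w * v⁻¹)⁻¹ * w
          = (v * w * v⁻¹)⁻¹ * (w * u * w⁻¹ * (v * w * v⁻¹)) * (v * w * v⁻¹)⁻¹ * w := by
        rw [h1]
      calc (v * w⁻¹ * v⁻¹ * w) * u
          = (v * w * v⁻¹)⁻¹ * (w * u * w⁻¹ * (v * w * v⁻¹)) * (v * w * v⁻¹)⁻¹ * w := by group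
        _ = (v * w * v⁻¹)⁻¹ * (v * w * v⁻¹ * u) * (v * w * v⁻¹)⁻¹ * w := h3.symm
        _ = u * (v * w⁻¹ * v⁻¹ * w) := by group
    have h4 : Commute u (v * w⁻¹ * v⁻¹ * w) := h2.symm
    have h5 := h4.inv_left.eq
    simpa using h5
  have sur : ∀ (u v w : H) (a b : ℤ), (w * u * w⁻¹) ^ a * (w * (v * w * v⁻¹)⁻¹) ^ b = 1 →
      u⁻¹ ^ (-a) * (v⁻¹⁻¹ * w⁻¹ * v⁻¹ * w⁻¹⁻¹) ^ b = 1 := by
    intro u v w a b huv
    have h1 : (w * u * w⁻¹) ^ a = w * u ^ a * w⁻¹ := conj_zpow
    have h2 : w * (v * w * v⁻¹)⁻¹ = w * (v * w⁻¹ * v⁻¹ * w) * w⁻¹ := by group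
    rw [h1, h2, conj_zpow] at huv
    have h3 : u ^ a * (v * w⁻¹ * v⁻¹ * w) ^ b = 1 := by
      have h4 : w⁻¹ * (w * u ^ a * w⁻¹ * (w * (v * w⁻¹ * v⁻¹ * w) ^ b * w⁻¹)) * w = 1 := by
        rw [huv]; group
      calc u ^ a * (v * w⁻¹ * v⁻¹ * w) ^ b
          = w⁻¹ * (w * u ^ a * w⁻¹ * (w * (v * w⁻¹ * v⁻¹ * w) ^ b * w⁻¹)) * w := by
            simp only [mul_assoc, inv_mul_cancel_left, inv_mul_cancel, mul_one]
        _ = 1 := h4
    simpa [inv_zpow'] using h3
  have R : Rel x⁻¹ y⁻¹ z⁻¹ (fun i => - p i) q :=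
    ⟨com x y z c0, com y z x c1, com z x y c2, sur x y z _ _ s0, sur y z x _ _ s1,
      sur z x y _ _ s2⟩
  have fin : x = 1 ∧ y = 1 ∧ z = 1 := by
    rcases h with h | h
    · have R' := R.mirror
      have := eq_one_of_rel hH (p := fun i => - - p i) hq (fun i => by rw [neg_neg]; exact h i) R'
      obtain ⟨t1, t2, t3⟩ := this
      rw [inv_inv] at t1
      have t3' : z = 1 := by simpa using t3
      rw [t1] at t2
      refine ⟨t1, by simpa using t2, t3'⟩
    · have := eq_one_of_rel hH hq (fun i => by have := h i; show q i ≤ - p i; omega) R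
      obtain ⟨t1, t2, t3⟩ := this
      exact ⟨by simpa using t1, by simpa using t2, by simpa using t3⟩
  obtain ⟨f1, f2, f3⟩ := fin
  have gens : ∀ (i : Fin 3) (b : Bool), m i b = 1 := by
    intro i b
    fin_cases i <;> cases b
    · show m 0 false = 1
      rw [o0, f1]; group
    · exact f1
    · show m 1 false = 1
      rw [o1, f2]; group
    · exact f2
    · show m 2 false = 1
      rw [o2, f3]; group
    · exact f3
  have hf : f = 1 := by
    apply PresentedGroup.ext
    rintro ⟨i, b⟩
    exact gens i b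
  rw [hf]; rfl

theorem result (p q : Fin 3 → ℤ) (hq : ∀ i, 1 ≤ q i)
    (h : (∀ i, q i ≤ p i) ∨ (∀ i, p i ≤ - q i)) :
    ¬ LeftOrderable (SurgeryGroup p q) ∧
    ∀ (H : Type*) [Group H], LeftOrderable H → ∀ f : SurgeryGroup p q →* H, ∀ g, f g = 1 := by
  refine ⟨fun hG => ?_, fun H _ hH f g => hom_trivial p q hq h H hH f g⟩
  obtain ⟨a, b, hab⟩ := hG.1
  have key := hom_trivial p q hq h (SurgeryGroup p q) hG (MonoidHom.id _)
  exact hab (by
    have h1 := key a
    have h2 := key b
    simp only [MonoidHom.id_apply] at h1 h2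
    rw [h1, h2])

end Pool.Agent.Results.MP_3d425c_gt.BorromeanSurgery
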